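import Mathlib
import Pool.Agent.H65.GolD
import Pool.Agent.H65.Gol3

set_option autoImplicit false

namespace Pool.Agent.Results.MP_5d828d_al.No

open Pool.Agent.H65.GolD

theorem result :
    ∃ (G : Set (MvPolynomial (Fin 3) ℚ)) (I : Ideal (MvPolynomial (Fin 3) ℚ)),
      I = Ideal.span G ∧ (∀ g ∈ G, g.IsHomogeneous 3) ∧
      I ≤ MvPolynomial.idealOfVars (Fin 3) ℚ ^ 2 ∧
      FinDim I ∧ IsGolod I ∧ type0 I = 2 ∧ I.height = 3 :=
  ⟨Pool.Agent.H65.Gol.gens, Pool.Agent.H65.Gol.I0, rfl, Pool.Agent.H65.Gol.gens_hom,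
    Pool.Agent.H65.Gol.I0_le, Pool.Agent.H65.Gol.fin_R, Pool.Agent.H65.Gol.golod,
    Pool.Agent.H65.Gol.type_two, Pool.Agent.H65.Gol.height_three⟩

end Pool.Agent.Results.MP_5d828d_al.No
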